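import Pool.Agent.H49.LAN.Stmts

set_option autoImplicit false

/-!
Project LAN, module GPW: the translation part has order dividing `p - 1`.
-/

open scoped BigOperators
open Finset

namespace LAN

namespace GPW

lemma iter {p s : ℕ} [Fact p.Prime] {W : Type} [CommGroup W]
    {f : ZMod (p ^ s) → W → ℤ} {t : (ZMod (p ^ s))ˣ} {g : W} {ε : ℤ} (h : NS p s W f t g ε)
    (j : ℕ) : ∀ u : W, Per p s (fun i => f ((↑(t ^ j)⁻¹ : ZMod (p ^ s)) * i) u -
      ε ^ j * f i (u * (g ^ j)⁻¹)) := by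
  induction j with
  | zero =>
    intro u i y _
    simp
  | succ j ih =>
    intro u i y hy
    have h1 : ∀ i : ZMod (p ^ s), (↑(t ^ (j + 1))⁻¹ : ZMod (p ^ s)) * i =
        (↑t⁻¹ : ZMod (p ^ s)) * ((↑(t ^ j)⁻¹ : ZMod (p ^ s)) * i) := by
      intro i
      rw [← mul_assoc, ← Units.val_mul, pow_succ, mul_inv_rev]
    have h2 : u * (g ^ (j + 1))⁻¹ = (u * g⁻¹) * (g ^ j)⁻¹ := by
      rw [pow_succ, mul_inv_rev, mul_assoc]
    have h3 := h.per u ((↑(t ^ j)⁻¹ : ZMod (p ^ s)) * i) ((↑(t ^ j)⁻¹ : ZMod (p ^ s)) * y) (by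
      rw [mul_left_comm, hy, mul_zero])
    have h4 := ih (u * g⁻¹) i y hy
    simp only at h3 h4 ⊢
    rw [h1, h1, h2, mul_add]
    rw [mul_add] at h4
    rw [pow_succ]
    linear_combination h3 + ε * h4

end GPW

open GPW

theorem gpw : GPWStmt := by
  intro p s _ W _ _ _ f n lam t g ε hp2 hs hn hcop hDS hNS
  have hp := (Fact.out : p.Prime)
  obtain ⟨M, hM⟩ : ∃ M, M = (p ^ s).totient := ⟨_, rfl⟩
  have hM' : M = p ^ (s - 1) * (p - 1) := by rw [hM, Nat.totient_prime_pow hp hs]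
  have hev : Even (p - 1) := by
    rcases hp.eq_two_or_odd' with h2 | hodd
    · exact absurd h2 hp2
    · obtain ⟨k, hk⟩ := hodd
      exact ⟨k, by omega⟩
  have hMev : Even M := by rw [hM']; exact hev.mul_left _
  have hepsM : ε ^ M = 1 := by
    rcases hNS.e1 with h1 | h1 <;> rw [h1]
    · simp
    · exact hMev.neg_one_pow
  have htM : t ^ M = 1 := by rw [hM]; exact ZMod.pow_totient t
  have hgM : g ^ M = 1 := by
    by_contra hg
    obtain ⟨c, hc⟩ : ∃ c, c = (g ^ M)⁻¹ := ⟨_, rfl⟩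
    have hc1 : c ≠ 1 := by
      rw [hc]
      intro h
      exact hg (inv_eq_one.1 h)
    have hc2 : c⁻¹ ≠ 1 := fun h => hc1 (inv_eq_one.1 h)
    have hper : ∀ u : W, Per p s (fun i => f i u - f i (u * c)) := by
      intro u i y hy
      have := iter hNS M u i y hy
      simp only [htM, hepsM, inv_one, Units.val_one, one_mul] at this
      rw [hc]
      exact this
    -- an element of order `p`
    obtain ⟨y, hy⟩ : ∃ y : ZMod (p ^ s), y = ((p ^ (s - 1) : ℕ) : ZMod (p ^ s)) := ⟨_, rfl⟩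
    have hpy : (p : ZMod (p ^ s)) * y = 0 := by
      rw [hy, ← Nat.cast_mul, ← pow_succ', Nat.sub_add_cancel hs, ZMod.natCast_self]
    have hy0 : y ≠ 0 := by
      rw [hy, Ne, ZMod.natCast_eq_zero_iff]
      intro h
      have h1 : p ^ s ≤ p ^ (s - 1) := Nat.le_of_dvd (pow_pos hp.pos _) h
      have h2 : p ^ (s - 1) < p ^ s := Nat.pow_lt_pow_right hp.one_lt (by omega)
      omega
    -- correlations
    have a1 : ∀ z : ZMod (p ^ s), ∑ i, ∑ u, f (i + z) (u * c) * f i (u * c) =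
        ∑ i, ∑ u, f (i + z) (u * 1) * f i u := by
      intro z
      refine sum_congr rfl fun i _ => ?_
      refine Fintype.sum_equiv (Equiv.mulRight c) _ _ fun u => ?_
      rw [Equiv.coe_mulRight, mul_one]
    have a2 : ∀ z : ZMod (p ^ s), ∑ i, ∑ u, f (i + z) u * f i (u * c) =
        ∑ i, ∑ u, f (i + z) (u * c⁻¹) * f i u := by
      intro z
      refine sum_congr rfl fun i _ => ?_
      refine Fintype.sum_equiv (Equiv.mulRight c) _ _ fun u => ?_
      rw [Equiv.coe_mulRight, mul_inv_cancel_right]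
    have a3 : ∀ z : ZMod (p ^ s), ∑ i, ∑ u, (f (i + z) u - f (i + z) (u * c)) *
        (f i u - f i (u * c)) = ∑ i, ∑ u, f (i + z) (u * 1) * f i u -
          ∑ i, ∑ u, f (i + z) (u * c) * f i u - ∑ i, ∑ u, f (i + z) (u * c⁻¹) * f i u +
          ∑ i, ∑ u, f (i + z) (u * 1) * f i u := by
      intro z
      rw [← a2 z]
      nth_rewrite 2 [← a1 z]
      simp_rw [← Finset.sum_sub_distrib, ← Finset.sum_add_distrib]
      refine sum_congr rfl fun i _ => sum_congr rfl fun u _ => ?_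
      rw [mul_one]
      ring
    have b1 := a3 y
    have b2 := a3 0
    rw [hDS.ac, hDS.ac, hDS.ac, if_neg (fun h => hy0 h.1), if_neg (fun h => hy0 h.1),
      if_neg (fun h => hy0 h.1)] at b1
    rw [hDS.ac, hDS.ac, hDS.ac, if_pos ⟨rfl, rfl⟩, if_neg (fun h => hc1 h.2),
      if_neg (fun h => hc2 h.2)] at b2
    have b3 : ∑ i, ∑ u, (f (i + y) u - f (i + y) (u * c)) * (f i u - f i (u * c)) =
        ∑ i, ∑ u, (f (i + 0) u - f (i + 0) (u * c)) * (f i u - f i (u * c)) := by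
      refine sum_congr rfl fun i _ => sum_congr rfl fun u _ => ?_
      have := hper u i y hpy
      simp only at this
      rw [this, add_zero]
    rw [b1, b2] at b3
    apply hn
    linarith
  -- conclusion
  have h1 : orderOf (g ^ (p - 1)) ∣ p ^ (s - 1) := by
    apply orderOf_dvd_of_pow_eq_one
    rw [← pow_mul, mul_comm, ← hM', hgM]
  have h2 : orderOf (g ^ (p - 1)) ∣ Fintype.card W := orderOf_dvd_card
  have h3 : orderOf (g ^ (p - 1)) = 1 :=
    Nat.eq_one_of_dvd_coprimes (hcop.pow_left (s - 1)) h1 h2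
  exact orderOf_eq_one_iff.1 h3

end LAN
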