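import Pool.Agent.H49.LAN.Stmts

set_option autoImplicit false

/-!
Project LAN, module KCO: correlation identity for `K`.
-/

open scoped BigOperators
open Finset

namespace LAN

namespace KCO

/-- sum over `ZMod p` by powers of a generator -/
lemma sum_gen {p : ℕ} [Fact p.Prime] (τ : (ZMod p)ˣ)
    (hτ : ∀ x : (ZMod p)ˣ, x ∈ Subgroup.zpowers τ) (F : ZMod p → ℤ) :
    ∑ l, F l = F 0 + ∑ j ∈ range (p - 1), F (↑(τ ^ j)⁻¹ : ZMod p) := by
  have hord : orderOf τ = p - 1 := by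
    rw [orderOf_eq_card_of_forall_mem_zpowers hτ, Nat.card_eq_fintype_card, ZMod.card_units]
  rw [← Finset.add_sum_erase univ F (mem_univ (0 : ZMod p))]
  congr 1
  symm
  refine sum_bij (fun j _ => (↑(τ ^ j)⁻¹ : ZMod p)) ?_ ?_ ?_ ?_
  · intro j _
    rw [mem_erase]
    exact ⟨Units.ne_zero _, mem_univ _⟩
  · intro i hi j hj h
    rw [mem_range] at hi hj
    have h1 : τ ^ i = τ ^ j := by
      have := Units.ext h
      exact inv_injective this
    exact pow_injOn_Iio_orderOf (by rw [Set.mem_Iio, hord]; exact hi)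
      (by rw [Set.mem_Iio, hord]; exact hj) h1
  · intro l hl
    rw [mem_erase] at hl
    obtain ⟨x, rfl⟩ : ∃ x : (ZMod p)ˣ, l = x := ⟨Units.mk0 l hl.1, rfl⟩
    have h1 : x⁻¹ ∈ Submonoid.powers τ := by
      rw [mem_powers_iff_mem_zpowers]
      exact hτ _
    obtain ⟨j, hj⟩ := h1
    refine ⟨j % (p - 1), ?_, ?_⟩
    · rw [mem_range]
      refine Nat.mod_lt _ ?_
      have := (Fact.out : p.Prime).two_le
      omega
    · have h2 : τ ^ (j % (p - 1)) = x⁻¹ := by
        rw [← hord, pow_mod_orderOf]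
        exact hj
      rw [h2, inv_inv]
  · intro j _
    rfl

lemma sum_shift {N : ℕ} (F : ℕ → ℤ) (hF : ∀ j, F (j + N) = F j) (c : ℕ) :
    ∑ j ∈ range N, F (j + c) = ∑ j ∈ range N, F j := by
  induction c with
  | zero => rfl
  | succ c ih =>
    rw [← ih]
    rcases Nat.eq_zero_or_pos N with rfl | hN
    · simp
    obtain ⟨M, rfl⟩ : ∃ M, N = M + 1 := ⟨N - 1, by omega⟩
    rw [Finset.sum_range_succ, Finset.sum_range_succ']
    congr 1
    · refine sum_congr rfl fun j _ => ?_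
      congr 1
      ring
    · rw [show M + (c + 1) = (0 + c) + (M + 1) by ring, hF]

end KCO

open KCO

theorem kco : KCOStmt := by
  intro p _ W _ _ _ B K τ g ε n hp2 hB h
  have hp := (Fact.out : p.Prime)
  have hp1 : 2 ≤ p := hp.two_le
  have hNpos : 0 < p - 1 := by omega
  have hev : Even (p - 1) := by
    rcases hp.eq_two_or_odd' with h2 | hodd
    · exact absurd h2 hp2
    · obtain ⟨k, hk⟩ := hodd
      exact ⟨k, by omega⟩
  have heps : ∀ j : ℕ, ε ^ j * ε ^ j = 1 := by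
    intro j
    rw [← mul_pow]
    rcases hB.e1 with h1 | h1 <;> rw [h1] <;> simp
  have hepsN : ε ^ (p - 1) = 1 := by
    rcases hB.e1 with h1 | h1 <;> rw [h1]
    · simp
    · exact hev.neg_one_pow
  obtain ⟨KK, hKK⟩ : ∃ KK : ZMod p → W → ℤ, ∀ l u, KK l u = B l u - B 0 u :=
    ⟨_, fun _ _ => rfl⟩
  have hKK0 : ∀ u, KK 0 u = 0 := by
    intro u
    rw [hKK, sub_self]
  have hKKj : ∀ (j : ℕ) (u : W), KK (↑(τ ^ j)⁻¹ : ZMod p) u = ε ^ j * K (u * (g ^ j)⁻¹) := by
    intro j u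
    rw [hKK, hB.rel j u]
    ring
  have c1 : ∀ y : ZMod p, y ≠ 0 →
      ∑ l, ∑ u, (KK l (u * h) - KK (l + y) (u * h)) * KK l u = if h = 1 then n else 0 := by
    intro y hy
    rw [← hB.corr y hy h]
    have e1 : ∑ l : ZMod p, ∑ u, (KK l (u * h) - KK (l + y) (u * h)) * B 0 u = 0 := by
      rw [Finset.sum_comm]
      refine sum_eq_zero fun u _ => ?_
      rw [← Finset.sum_mul, Finset.sum_sub_distrib]
      have e2 : ∑ l : ZMod p, KK (l + y) (u * h) = ∑ l : ZMod p, KK l (u * h) :=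
        Fintype.sum_equiv (Equiv.addRight y) _ _ fun l => rfl
      rw [e2, sub_self, zero_mul]
    have e3 : ∀ l u, (B l (u * h) - B (l + y) (u * h)) * B l u =
        (KK l (u * h) - KK (l + y) (u * h)) * KK l u +
        (KK l (u * h) - KK (l + y) (u * h)) * B 0 u := by
      intro l u
      rw [hKK, hKK, hKK]
      ring
    simp_rw [e3, Finset.sum_add_distrib]
    rw [e1, add_zero]
  have c2 : ∑ y : ZMod p, ∑ l, ∑ u, (KK l (u * h) - KK (l + y) (u * h)) * KK l u =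
      ((p - 1 : ℕ) : ℤ) * if h = 1 then n else 0 := by
    rw [← Finset.add_sum_erase univ _ (mem_univ (0 : ZMod p))]
    rw [Finset.sum_congr rfl fun y hy => c1 y (Finset.ne_of_mem_erase hy)]
    rw [Finset.sum_const, Finset.card_erase_of_mem (mem_univ _), card_univ, ZMod.card,
      nsmul_eq_mul]
    simp
  have c3 : ∑ y : ZMod p, ∑ l, ∑ u, (KK l (u * h) - KK (l + y) (u * h)) * KK l u =
      (p : ℤ) * (∑ l, ∑ u, KK l (u * h) * KK l u) -
        ∑ u, (∑ l, KK l (u * h)) * (∑ l, KK l u) := by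
    simp_rw [sub_mul, Finset.sum_sub_distrib]
    rw [Finset.sum_const, card_univ, ZMod.card, nsmul_eq_mul]
    congr 1
    rw [Finset.sum_comm]
    have e1 : ∀ l : ZMod p, ∑ y : ZMod p, ∑ u, KK (l + y) (u * h) * KK l u =
        ∑ u, (∑ l', KK l' (u * h)) * KK l u := by
      intro l
      rw [Finset.sum_comm]
      refine sum_congr rfl fun u _ => ?_
      rw [← Finset.sum_mul]
      congr 1
      exact Fintype.sum_equiv (Equiv.addLeft l) _ _ fun y => rfl
    simp_rw [e1]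
    rw [Finset.sum_comm]
    refine sum_congr rfl fun u _ => ?_
    rw [Finset.mul_sum]
  have c4 : ∑ l, ∑ u, KK l (u * h) * KK l u = ((p - 1 : ℕ) : ℤ) * Cor K h := by
    rw [sum_gen τ hB.gen]
    have e1 : ∑ u, KK 0 (u * h) * KK 0 u = 0 := sum_eq_zero fun u _ => by rw [hKK0, zero_mul]
    rw [e1, zero_add]
    have e2 : ∀ j ∈ range (p - 1), ∑ u, KK (↑(τ ^ j)⁻¹ : ZMod p) (u * h) *
        KK (↑(τ ^ j)⁻¹ : ZMod p) u = Cor K h := by
      intro j _
      unfold Cor
      refine Fintype.sum_equiv (Equiv.mulRight (g ^ j)⁻¹) _ _ fun u => ?_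
      rw [hKKj, hKKj, Equiv.coe_mulRight]
      have e3 : u * h * (g ^ j)⁻¹ = u * (g ^ j)⁻¹ * h := mul_right_comm _ _ _
      rw [e3]
      linear_combination (K (u * (g ^ j)⁻¹ * h) * K (u * (g ^ j)⁻¹)) * heps j
    rw [Finset.sum_congr rfl e2, Finset.sum_const, card_range, nsmul_eq_mul]
  have c5 : ∑ u, (∑ l, KK l (u * h)) * (∑ l, KK l u) =
      ((p - 1 : ℕ) : ℤ) * ∑ d ∈ range (p - 1), ε ^ d * Cor K (h * g ^ d) := by
    have e0 : ∀ u, ∑ l, KK l u = ∑ j ∈ range (p - 1), ε ^ j * K (u * (g ^ j)⁻¹) := by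
      intro u
      rw [sum_gen τ hB.gen, hKK0, zero_add]
      exact sum_congr rfl fun j _ => hKKj j u
    simp_rw [e0, Finset.sum_mul_sum]
    rw [Finset.sum_comm]
    have e1 : ∀ i ∈ range (p - 1), ∑ u, ∑ j ∈ range (p - 1), ε ^ i * K (u * h * (g ^ i)⁻¹) *
        (ε ^ j * K (u * (g ^ j)⁻¹)) = ∑ d ∈ range (p - 1), ε ^ d * Cor K (h * g ^ d) := by
      intro i hi
      rw [mem_range] at hi
      rw [Finset.sum_comm]
      rw [← sum_shift (N := p - 1) (fun d => ε ^ d * Cor K (h * g ^ d)) (fun j => by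
        rw [pow_add, hepsN, mul_one, pow_add, hB.gp, mul_one]) (p - 1 - i)]
      refine sum_congr rfl fun j _ => ?_
      have e2 : ε ^ (j + (p - 1 - i)) = ε ^ i * ε ^ j := by
        have e3 : ε ^ (p - 1 - i) * ε ^ i = 1 := by
          rw [← pow_add, Nat.sub_add_cancel hi.le, hepsN]
        rw [pow_add]
        linear_combination (ε ^ j * ε ^ i) * e3 - (ε ^ j * ε ^ (p - 1 - i)) * heps i
      have e4 : g ^ (j + (p - 1 - i)) = g ^ j * (g ^ i)⁻¹ := by
        rw [pow_add]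
        congr 1
        rw [eq_inv_iff_mul_eq_one, ← pow_add, Nat.sub_add_cancel hi.le, hB.gp]
      rw [e2, e4]
      unfold Cor
      rw [Finset.mul_sum]
      refine Fintype.sum_equiv (Equiv.mulRight (g ^ j)⁻¹) _ _ fun u => ?_
      rw [Equiv.coe_mulRight]
      have e5 : u * (g ^ j)⁻¹ * (h * (g ^ j * (g ^ i)⁻¹)) = u * h * (g ^ i)⁻¹ := by
        calc u * (g ^ j)⁻¹ * (h * (g ^ j * (g ^ i)⁻¹))
            = u * h * (g ^ i)⁻¹ * ((g ^ j)⁻¹ * g ^ j) := by
              simp only [mul_assoc, mul_comm, mul_left_comm]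
          _ = _ := by rw [inv_mul_cancel, mul_one]
      rw [e5]
      ring
    rw [Finset.sum_congr rfl e1, Finset.sum_const, card_range, nsmul_eq_mul]
  have hfin : ((p - 1 : ℕ) : ℤ) * ((p : ℤ) * Cor K h -
      ∑ d ∈ range (p - 1), ε ^ d * Cor K (h * g ^ d)) =
      ((p - 1 : ℕ) : ℤ) * if h = 1 then n else 0 := by
    rw [← c2, c3, c4, c5]
    ring
  exact mul_left_cancel₀ (by exact_mod_cast hNpos.ne') hfin

end LAN
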